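import Pool.Agent.E8helper22.VQ.Stm

set_option autoImplicit false

namespace Pool.Agent.E8helper54.VQ

open Pool.Agent.E8helper22.VQ

theorem t_ODE : S_ODE := by
  intro f g z hf hg hz hd
  by_contra hne
  have htop : analyticOrderAt f z ≠ ⊤ := fun h => hne (analyticOrderAt_eq_top.mp h)
  have h1 := hf.analyticOrderAt_deriv_add_one
  have h2 : analyticOrderAt (fun w => f w - f z) z = analyticOrderAt f z := by
    simp [hz]
  have h3 : analyticOrderAt (deriv f) z = analyticOrderAt (g * f) z :=
    analyticOrderAt_congr hd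
  rw [h3, analyticOrderAt_mul hg hf, h2] at h1
  obtain ⟨n, hn⟩ := ENat.ne_top_iff_exists.mp htop
  rw [← hn] at h1
  cases hgo : analyticOrderAt g z with
  | top => rw [hgo] at h1; simp at h1
  | coe k =>
    rw [hgo] at h1
    have h4 : k + n + 1 = n := by exact_mod_cast h1
    omega

end Pool.Agent.E8helper54.VQ
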